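import Pool.Agent.LibCI7.Conc
import Pool.Agent.LibCI7.Quant
import Pool.Agent.LibCI99.Final

/-!
How many correlations determine Cramér's constant? We consider random sets of natural numbers
with the local density `1 / log n` of the primes, in which only the product rule for the sets of at
most `k n` indices near `n` is known. The order `k n ≍ log n` is the threshold: from
`k n ≥ 4 log n` on Cramér's constant is `1` almost surely, for `k n ≍ log n` it is finite and
positive, and for `k n = o(log n)` it can have every value in `[0, ∞]`, also in random sets which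
have the local densities of the primes and satisfy all Hardy-Littlewood asymptotics.

The parts `LibCI7` are by helper7, `LibBar93` (used: the interpolation on a block, the densities)
by helper93 and helper63, `LibCI99` (the Hardy-Littlewood asymptotics of the main terms) by
helper99.
-/

namespace Pool.Agent.Results.MP_ff81b6_nt.CorrelationOrder

open Pool.Agent.LibCramer Pool.Agent.LibBar93 MeasureTheory Filter Topology
open scoped ENNReal

/-- A random set `{n | ω ∈ E n}` in which `n` has the probability `p n` for all large `n` and in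
which the product rule holds for all finite sets `S` of indices with `|S| ≤ k j` for all `j ∈ S`. -/
structure RandomSet (p : ℕ → ℝ) (k : ℕ → ℕ) {Ω : Type} [MeasurableSpace Ω] (μ : Measure Ω)
    (E : ℕ → Set Ω) : Prop where
  prob : IsProbabilityMeasure μ
  meas : ∀ n, MeasurableSet (E n)
  indep : IndepUpTo E μ k
  density : ∀ᶠ n in atTop, μ.real (E n) = p n

/-- All tuple counts of `A`, in all residue classes, are the expected ones for the density
`dens` up to `O(x ^ (4/5))`, and (for the number of the `n ≤ x`, `n ≡ a (mod q)`, `n + H ⊆ A`) they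
have the Hardy-Littlewood asymptotics `hlConst q a H · x / (log x)^|H|`. -/
def HL (A : Set ℕ) : Prop :=
  (∀ (H : Finset ℕ) (q a : ℕ), ∃ C : ℝ, ∀ x : ℕ, 1 ≤ x →
    |(tuples A H q a x : ℝ) - mainT dens H q a x| ≤ C * (x : ℝ) ^ (4 / 5 : ℝ)) ∧
  ∀ (H : Finset ℕ) (q a : ℕ), 0 < q →
    Tendsto (fun x : ℕ => (tuples A H q a x : ℝ) * Real.log x ^ H.card / x) atTop
      (𝓝 (LibCI99.hlConst q a H))

theorem hl_of_error (A : Set ℕ) (hA : ∀ (H : Finset ℕ) (q a : ℕ), ∃ C : ℝ, ∀ x : ℕ, 1 ≤ x →
    |(tuples A H q a x : ℝ) - mainT dens H q a x| ≤ C * (x : ℝ) ^ (4 / 5 : ℝ)) : HL A := by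
  refine ⟨hA, fun H q a hq => ?_⟩
  obtain ⟨C, hC⟩ := hA H q a
  have h1 : Tendsto (fun x : ℕ => ((tuples A H q a x : ℝ) - mainT dens H q a x) *
      Real.log x ^ H.card / x) atTop (𝓝 0) := by
    have h2 : Tendsto (fun x : ℕ => C * (Real.log (x : ℝ) ^ H.card / (x : ℝ) ^ (1 / 5 : ℝ))) atTop
        (𝓝 (C * 0)) := by
      refine Tendsto.const_mul C ?_
      have h3 := (isLittleO_log_rpow_rpow_atTop (s := 1 / 5) (H.card : ℝ)
        (by norm_num)).tendsto_div_nhds_zero
      have h4 := h3.comp (tendsto_natCast_atTop_atTop (R := ℝ))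
      refine h4.congr fun x => ?_
      simp only [Function.comp_apply, Real.rpow_natCast]
    rw [mul_zero] at h2
    refine squeeze_zero_norm' ?_ h2
    filter_upwards [eventually_ge_atTop 1] with x hx
    have hx0 : (0 : ℝ) < x := by exact_mod_cast hx
    have h3 := hC x hx
    have hlog : 0 ≤ Real.log (x : ℝ) := Real.log_natCast_nonneg x
    rw [Real.norm_eq_abs, abs_div, abs_mul, abs_of_nonneg (pow_nonneg hlog _), abs_of_pos hx0]
    have h5 : (x : ℝ) = (x : ℝ) ^ (4 / 5 : ℝ) * (x : ℝ) ^ (1 / 5 : ℝ) := by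
      rw [← Real.rpow_add hx0]
      norm_num
    have h6 : 0 < (x : ℝ) ^ (4 / 5 : ℝ) := Real.rpow_pos_of_pos hx0 _
    have h7 : 0 < (x : ℝ) ^ (1 / 5 : ℝ) := Real.rpow_pos_of_pos hx0 _
    have h8 : C * (x : ℝ) ^ (4 / 5 : ℝ) * Real.log x ^ H.card / x =
        C * (Real.log (x : ℝ) ^ H.card / (x : ℝ) ^ (1 / 5 : ℝ)) := by
      have key : ∀ A B L X : ℝ, 0 < A → 0 < B → X = A * B → C * A * L / X = C * (L / B) := by
        intro A B L X hA hB hX
        rw [hX]
        field_simp
      exact key _ _ _ _ h6 h7 h5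
    rw [← h8]
    gcongr
  have h6 := h1.add (LibCI99.mainT_asymp q a hq H)
  rw [zero_add] at h6
  refine h6.congr fun x => ?_
  ring

/-- Let `flat n = 1 / log n`, and let `dens n` be the density of the primes at `n` as seen by the
primes up to `T n = ⌊log₂ log₂ n⌋ / 4` (`0` if one of them divides `n`, otherwise `1 / log n` times
the product of the `(1 - 1/p)⁻¹`, `p ≤ T n`); `cramer B` is Cramér's constant of `B`.

* In every random set with `P(n) → 0`, the expected number of elements in `(m, m + l (log m)^2]`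
  `(l + o(1)) log m` for every `l > 0` (`LocDens`), and the product rule for all `S` with
  `|S| ≤ t log n` for `n ∈ S` (`n` large): almost surely the set is infinite and Cramér's constant
  is between `min 1 (t / 4)` and `raoBound t`, which is `1` for `t ≥ 2` and
  `(t / 2) exp (2 / t - 1)` for `t < 2`. So it is `1` for `t ≥ 4`.
* `flat` and `dens` have the property `LocDens`; for both densities, for every `k` with
  `k n = o(log n)` and every `l` in `[0, ∞]` there is a random set with the product rule of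
  order `k` and Cramér constant `l` almost surely.
* The order of the bounds for small `t` is right: if `k n ≤ t log n`, `t ≤ 1 / 200`, there are
  for every `l` between `400 t` and `exp (1 / (32 t) - 4)` random sets with the product rule
  of order `k` and Cramér constant in `[l, l + 800 t]`.
* If `k n → ∞`, a random set with the density `dens` and the product rule of order `k` has almost
  surely the Hardy-Littlewood property `HL` for all tuples in all residue classes, with the
  singular series as constant for `q = 1`. -/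
theorem result :
    (∀ {Ω : Type} [MeasurableSpace Ω] (μ : Measure Ω) [IsProbabilityMeasure μ] (E : ℕ → Set Ω)
      (k : ℕ → ℕ) (t : ℝ), (∀ n, MeasurableSet (E n)) → IndepUpTo E μ k →
      LocDens (fun n => μ.real (E n)) → 0 < t → (∀ᶠ n : ℕ in atTop, t * Real.log n ≤ k n) →
      ∀ᵐ ω ∂μ, {n | ω ∈ E n}.Infinite ∧ ENNReal.ofReal (min 1 (t / 4)) ≤ cramer {n | ω ∈ E n} ∧
        cramer {n | ω ∈ E n} ≤ ENNReal.ofReal (raoBound t)) ∧
    (∀ p : ℕ → ℝ, p = flat ∨ p = dens → LocDens p ∧
      (∀ k : ℕ → ℕ, Tendsto (fun n : ℕ => (k n : ℝ) / Real.log n) atTop (𝓝 0) → ∀ l : ℝ≥0∞,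
        ∃ (Ω : Type) (_ : MeasurableSpace Ω) (μ : Measure Ω) (E : ℕ → Set Ω),
          RandomSet p k μ E ∧ ∀ᵐ ω ∂μ, {n | ω ∈ E n}.Infinite ∧ cramer {n | ω ∈ E n} = l) ∧
      (∀ (t l : ℝ) (k : ℕ → ℕ), 0 < t → t ≤ 1 / 200 → (∀ᶠ n : ℕ in atTop, k n ≤ t * Real.log n) →
        400 * t ≤ l → l ≤ Real.exp (1 / (32 * t) - 4) →
        ∃ (Ω : Type) (_ : MeasurableSpace Ω) (μ : Measure Ω) (E : ℕ → Set Ω),
          RandomSet p k μ E ∧ ∀ᵐ ω ∂μ, {n | ω ∈ E n}.Infinite ∧
            ENNReal.ofReal l ≤ cramer {n | ω ∈ E n} ∧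
            cramer {n | ω ∈ E n} ≤ ENNReal.ofReal (l + 800 * t))) ∧
    (∀ {Ω : Type} [MeasurableSpace Ω] (μ : Measure Ω) (E : ℕ → Set Ω) (k : ℕ → ℕ),
      RandomSet dens k μ E → Tendsto k atTop atTop → ∀ᵐ ω ∂μ, HL {n | ω ∈ E n}) ∧
    (∀ (a : ℕ) (H : Finset ℕ), LibCI99.hlConst 1 a H = LibCI99.singSeries H) := by
  have hgood : ∀ p : ℕ → ℝ, p = flat ∨ p = dens → GoodWeight p := by
    rintro p (rfl | rfl)
    · exact flat_good
    · exact dens_good
  refine ⟨fun {Ω} _ μ _ E k t hE hind hloc ht hk => cramer_bounds hE hind hloc ht hk, ?_, ?_,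
    LibCI99.hlConst_one⟩
  · intro p hp
    refine ⟨(hgood p hp).loc, fun k hk l => ?_, fun t l k ht ht1 hk hl1 hl2 => ?_⟩
    · obtain ⟨Ω, m, μ, hμ, E, h1, h2, h3, h4⟩ := exists_model (hgood p hp) hk l
      exact ⟨Ω, m, μ, E, ⟨hμ, h1, h2, h3⟩, h4⟩
    · obtain ⟨Ω, m, μ, hμ, E, h1, h2, h3, h4⟩ := exists_model' (hgood p hp) ht ht1 hk hl1 hl2
      exact ⟨Ω, m, μ, E, ⟨hμ, h1, h2, h3⟩, h4⟩
  · intro Ω _ μ E k h hk
    have := h.prob
    filter_upwards [ae_tuples h.meas h.indep hk h.density] with ω hω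
    exact hl_of_error _ hω

end Pool.Agent.Results.MP_ff81b6_nt.CorrelationOrder
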