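import Pool.Agent.LibMaier.Numeric

/-!
Cramer's problem for randomly perturbed primes: bounds from Maier's matrix method.
-/

namespace Pool.Agent.Results.MP_ff81b6_nt.MatrixPerturbed

open Pool.Agent.LibCramer Pool.Agent.LibMaier MeasureTheory ProbabilityTheory Filter Topology

/-- Perturb the set of primes at random: every prime is deleted with probability `δ`, and every
natural number `n` is inserted with probability `r n`, where `r n * log n → η`, all independently.
Then almost surely the Cramer constant `L` of the resulting set satisfies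
`1 / (η + (e^γ / 2) log (1/δ)) ≤ L ≤ 1 / η`.  In particular `L` is almost surely larger than
`1 / (η + 1 - δ)`, the value for Cramer's model of the same density, when `4/5 ≤ δ < 1`. -/
theorem result {Ω : Type*} [MeasurableSpace Ω] (μ : Measure Ω) (E : ℕ → Set Ω)
    (hE : ∀ n, MeasurableSet (E n)) (hind : iIndepSet E μ)
    (δ η : ℝ) (hδ0 : 0 < δ) (hδ1 : δ ≤ 1) (hη : 0 ≤ η) (hcase : 0 < η ∨ δ < 1)
    (r : ℕ → ℝ) (hr0 : ∀ n, 0 ≤ r n) (hr1 : ∀ n, r n ≤ 1)
    (hr : Tendsto (fun n : ℕ => r n * Real.log n) atTop (𝓝 η))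
    (hE1 : ∀ n, μ (E n) = ENNReal.ofReal (pertProb δ r n)) :
    (∀ᵐ ω ∂μ, {n | ω ∈ E n}.Infinite ∧
      ENNReal.ofReal (1 / (η + Real.exp Real.eulerMascheroniConstant / 2 * Real.log (1 / δ))) ≤
        cramer {n | ω ∈ E n} ∧
      cramer {n | ω ∈ E n} ≤ (ENNReal.ofReal η)⁻¹) ∧
    (4 / 5 ≤ δ → δ < 1 → ∀ᵐ ω ∂μ,
      ENNReal.ofReal (1 / (η + (1 - δ))) < cramer {n | ω ∈ E n}) := by
  have hlog : 0 ≤ Real.log (1 / δ) := Real.log_nonneg (by rw [le_div_iff₀ hδ0]; linarith)
  have hpos : 0 < η + eg / 2 * Real.log (1 / δ) := by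
    rcases hcase with h | h
    · have := mul_nonneg (half_pos eg_pos).le hlog
      linarith
    · have h1 : 0 < Real.log (1 / δ) := Real.log_pos (by rw [lt_div_iff₀ hδ0]; linarith)
      have := mul_pos (half_pos eg_pos) h1
      linarith
  have h := cramer_eq_crit hE hind hE1 (pertProb_nonneg hδ0.le hδ1 hr0)
    (pertProb_le_one hδ0.le hr1) (not_summable_q hδ0.le hδ1 hr0 hr1 hr hcase)
  have hmain : ∀ᵐ ω ∂μ, {n | ω ∈ E n}.Infinite ∧
      ENNReal.ofReal (1 / (η + Real.exp Real.eulerMascheroniConstant / 2 * Real.log (1 / δ))) ≤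
        cramer {n | ω ∈ E n} ∧
      cramer {n | ω ∈ E n} ≤ (ENNReal.ofReal η)⁻¹ := by
    filter_upwards [h] with ω hω
    refine ⟨hω.1, ?_, ?_⟩
    · rw [hω.2]
      exact le_crit_maier hδ0 hδ1 hr0 hr1 hr hpos
    · rw [hω.2]
      exact crit_pert_le hδ0 hδ1 hr1 hη hr
  refine ⟨hmain, fun h1 h2 => ?_⟩
  filter_upwards [hmain] with ω hω
  refine lt_of_lt_of_le ?_ hω.2.1
  have h3 := eg_half_mul_log_lt h1 h2
  have h4 : 0 < 1 / (η + Real.exp Real.eulerMascheroniConstant / 2 * Real.log (1 / δ)) := by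
    unfold eg at hpos
    positivity
  rw [ENNReal.ofReal_lt_ofReal_iff h4]
  unfold eg at hpos h3
  exact one_div_lt_one_div_of_lt hpos (by linarith)

end Pool.Agent.Results.MP_ff81b6_nt.MatrixPerturbed
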