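import Pool.Agent.LibMaier.DispFinal

/-!
Cramer's problem for randomly displaced primes.
-/

namespace Pool.Agent.Results.MP_ff81b6_nt.RandomDisplacement

open Pool.Agent.LibCramer Pool.Agent.LibMaier MeasureTheory ProbabilityTheory Filter Topology

/-- Move every prime `p` to `p + X p`, where the integers `X p` are independent and
`|X p| ≤ (log p)^A`, `A ≥ 2`, and let `L` be the Cramer constant of the set of all `p + X p`.

First part: if for some `c > 0`, `0 < κ < 1` no interval of length `c log² p` contains `X p` with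
probability larger than `κ` (`p` large), and `c e^γ ω(u) log(1/(1-κ))/κ < 1` for some `u ≥ A`
(`ω` is Buchstab's function), then almost surely `L ≥ c`.

Second part: if the displacements are not concentrated at the scale `log² p`, that is, if the
probability that `X p` lies in a given interval of length `log² p` tends to zero, then almost
surely `L ≥ 1/(e^γ ω(u))` for all `u ≥ A`, and `L > 1`. -/
theorem result {Ω : Type*} [MeasurableSpace Ω] (μ : Measure Ω) [IsProbabilityMeasure μ]
    (X : Nat.Primes → Ω → ℤ) (hX : ∀ p, Measurable (X p)) (hind : iIndepFun X μ)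
    (A : ℝ) (hA : 2 ≤ A)
    (hbd : ∀ p : Nat.Primes, ∀ᵐ ω ∂μ, |(X p ω : ℝ)| ≤ Real.log (p : ℕ) ^ A) :
    (∀ c κ u : ℝ, 0 < c → 0 < κ → κ < 1 → A ≤ u →
      (∃ P₀ : ℕ, ∀ p : Nat.Primes, P₀ ≤ (p : ℕ) → ∀ t : ℤ,
        μ.real {ω | t < X p ω ∧ (X p ω : ℝ) ≤ t + c * Real.log (p : ℕ) ^ 2} ≤ κ) →
      c * (Real.exp Real.eulerMascheroniConstant * buchstab u) * (Real.log (1 / (1 - κ)) / κ) < 1 →
      ∀ᵐ ω ∂μ, (displaced X ω).Infinite ∧ ENNReal.ofReal c ≤ cramer (displaced X ω)) ∧
    ((∀ κ : ℝ, 0 < κ → ∃ P₀ : ℕ, ∀ p : Nat.Primes, P₀ ≤ (p : ℕ) → ∀ t : ℤ,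
        μ.real {ω | t < X p ω ∧ (X p ω : ℝ) ≤ t + Real.log (p : ℕ) ^ 2} ≤ κ) →
      ∀ᵐ ω ∂μ, (∀ u : ℝ, A ≤ u → ENNReal.ofReal
          (1 / (Real.exp Real.eulerMascheroniConstant * buchstab u)) ≤ cramer (displaced X ω)) ∧
        1 < cramer (displaced X ω)) := by
  refine ⟨fun c κ u hc hκ0 hκ1 hAu hconc hlt =>
    displaced_bound hX hind hA hAu hbd hκ0 hκ1 hc hconc hlt, fun hconc => ?_⟩
  have heg : 0 < Real.exp Real.eulerMascheroniConstant := Real.exp_pos _
  -- every rational number below the bound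
  have key : ∀ c u : ℝ, 0 < c → A ≤ u →
      c * (Real.exp Real.eulerMascheroniConstant * buchstab u) < 1 →
      ∀ᵐ ω ∂μ, ENNReal.ofReal c ≤ cramer (displaced X ω) := by
    intro c u hc hAu hlt
    have hb := buchstab_ge (show 1 ≤ u by linarith)
    obtain ⟨κ, hκ0, hκ1, hκ⟩ := exists_kappa (a := c * (Real.exp Real.eulerMascheroniConstant *
      buchstab u)) (by positivity) hlt
    have := displaced_bound hX hind hA hAu hbd hκ0 hκ1 hc (conc_scale hX hconc c κ hκ0) hκ
    filter_upwards [this] with ω hω using hω.2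
  have key2 : ∀ᵐ ω ∂μ, ∀ a b : ℚ, 0 < (a : ℝ) → A ≤ (b : ℝ) →
      (a : ℝ) * (Real.exp Real.eulerMascheroniConstant * buchstab b) < 1 →
      ENNReal.ofReal a ≤ cramer (displaced X ω) := by
    rw [ae_all_iff]
    intro a
    rw [ae_all_iff]
    intro b
    by_cases h : 0 < (a : ℝ) ∧ A ≤ (b : ℝ) ∧
        (a : ℝ) * (Real.exp Real.eulerMascheroniConstant * buchstab b) < 1
    · filter_upwards [key a b h.1 h.2.1 h.2.2] with ω hω _ _ _ using hω
    · filter_upwards with ω h1 h2 h3
      exact absurd ⟨h1, h2, h3⟩ h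
  filter_upwards [key2] with ω hω
  have main : ∀ u : ℝ, A ≤ u → ENNReal.ofReal
      (1 / (Real.exp Real.eulerMascheroniConstant * buchstab u)) ≤ cramer (displaced X ω) := by
    intro u hu
    have hbu := buchstab_ge (show 1 ≤ u by linarith)
    set D : ℝ := Real.exp Real.eulerMascheroniConstant * buchstab u with hD
    have hD0 : 0 < D := by positivity
    apply le_of_forall_lt
    intro r hr
    obtain ⟨r', hr1, hr2⟩ := exists_between hr
    have hr'top : r' ≠ ⊤ := ne_top_of_lt hr2
    refine lt_of_lt_of_le hr1 ?_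
    by_cases hr0 : r' = 0
    · rw [hr0]; exact zero_le
    have hr'pos : 0 < r'.toReal := ENNReal.toReal_pos hr0 hr'top
    have hr3 : r'.toReal < 1 / D := by
      have := (ENNReal.toReal_lt_toReal hr'top ENNReal.ofReal_ne_top).2 hr2
      rwa [ENNReal.toReal_ofReal (by positivity)] at this
    obtain ⟨a, ha1, ha2⟩ := exists_rat_btwn hr3
    have ha0 : 0 < (a : ℝ) := hr'pos.trans ha1
    have haD : (a : ℝ) * D < 1 := by rwa [lt_div_iff₀ hD0] at ha2
    -- a rational exponent just above `u`
    set η : ℝ := (1 - a * D) / (2 * (a * Real.exp Real.eulerMascheroniConstant)) with hη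
    have hη0 : 0 < η := by
      rw [hη]
      exact div_pos (by linarith) (by positivity)
    obtain ⟨b, hb1, hb2⟩ := exists_rat_btwn (show u < u + η by linarith)
    have hlip := abs_buchstab_sub_le (show (1 : ℝ) ≤ b by linarith) (show 1 ≤ u by linarith)
    rw [abs_of_pos (show 0 < (b : ℝ) - u by linarith)] at hlip
    have hb3 := (abs_le.1 hlip).2
    have hlast : (a : ℝ) * (Real.exp Real.eulerMascheroniConstant * buchstab b) < 1 := by
      have h1 : buchstab b ≤ buchstab u + η := by linarith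
      calc (a : ℝ) * (Real.exp Real.eulerMascheroniConstant * buchstab b)
          ≤ a * (Real.exp Real.eulerMascheroniConstant * (buchstab u + η)) := by gcongr
        _ = a * D + (1 - a * D) / 2 := by
            rw [hη, hD]
            field_simp
        _ < 1 := by linarith
    have := hω a b ha0 (by linarith) hlast
    refine le_trans ?_ this
    rw [← ENNReal.ofReal_toReal hr'top]
    exact ENNReal.ofReal_le_ofReal ha1.le
  refine ⟨main, ?_⟩
  obtain ⟨u, hu1, hu2⟩ := exists_buchstab_lt (show 1 ≤ A by linarith)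
  have h1 := main u hu1.1
  refine lt_of_lt_of_le ?_ h1
  have hbu := buchstab_ge (show 1 ≤ u by linarith [hu1.1])
  have h2 : Real.exp Real.eulerMascheroniConstant * buchstab u < 1 := by
    have h3 := mul_lt_mul_of_pos_left hu2 heg
    rwa [← Real.exp_add, add_neg_cancel, Real.exp_zero] at h3
  rw [show (1 : ENNReal) = ENNReal.ofReal 1 by simp, ENNReal.ofReal_lt_ofReal_iff (by positivity)]
  rw [lt_div_iff₀ (by positivity), one_mul]
  exact h2

end Pool.Agent.Results.MP_ff81b6_nt.RandomDisplacement
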