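import Pool.Agent.LibCI99.Final

/-!
The asymptotics of all tuples of primes, uniformly in all finite sets of shifts and with the error
of a random set, do not determine Cramér's constant: every value in `[0, ∞]` is possible. What they
do determine is a lower bound for the gaps of the order `log² / log log`, and this order is sharp.

Authors of the parts: helper93 (`LibBar93`, construction), helper63 (`LibCI`, the lower bound for
the gaps), helper99 (`LibCI99`, the Hardy-Littlewood asymptotics).
-/

namespace Pool.Agent.Results.MP_ff81b6_nt.TupleAsymptotics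

open Pool.Agent.LibBar93 Filter Topology
open scoped ENNReal

/-- The Hardy-Littlewood law in all residue classes: for every finite set `H` of shifts and every
class `a` mod `q` the number of the `n ≤ x`, `n ≡ a (mod q)`, with `n + H ⊆ A` is
`(S + o(1)) x / (log x)^|H|`, where `S = hlConst q a H` is the Hardy-Littlewood constant of `H` in
the class `a` mod `q`. -/
def HardyLittlewood (A : Set ℕ) : Prop :=
  ∀ q a : ℕ, 0 < q → ∀ H : Finset ℕ,
    Tendsto (fun x : ℕ => (tuples A H q a x : ℝ) * Real.log x ^ H.card / x) atTop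
      (𝓝 (LibCI99.hlConst q a H))

/-- The law of the tuples with an error of the size `x ^ (1 - c)` only, and without residue
classes. -/
def WeakTupleLaw (A : Set ℕ) : Prop :=
  ∃ c : ℝ, 0 < c ∧ ∃ C : ℝ, ∀ x : ℕ, 2 ≤ x → ∀ H : Finset ℕ, (∀ h ∈ H, h ≤ x) →
    |(tuples A H 1 0 x : ℝ) - mainT dens H 1 0 x| ≤ C * (x : ℝ) ^ (1 - c)

/-- The gap of `A` after its `k`-th element. -/
noncomputable def gap (A : Set ℕ) (k : ℕ) : ℝ :=
  (Nat.nth (· ∈ A) (k + 1) : ℝ) - (Nat.nth (· ∈ A) k : ℝ)

/-- Let `dens n` be the density of the primes at `n` as seen by the primes up to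
`T n = ⌊log₂ log₂ n⌋ / 4` (it is `0` if one of them divides `n`, and otherwise `1 / log n` times
the product of the `(1 - 1/p)⁻¹`, `p ≤ T n`), and let `TupleLaw dens A` say that, uniformly for ALL
finite sets `H` of shifts in `[0, x]`, all `q` and `a`, the number of the `n ≤ x`, `n ≡ a (mod q)`,
with `n + H ⊆ A` is `∑_{n ≤ x, n ≡ a (mod q)} ∏_{h ∈ H} dens (n + h)` up to `O(√x (log x)^5)`. Then

* `TupleLaw dens A` implies the Hardy-Littlewood law for all tuples in all residue classes, with
  the singular series as constant for `q = 1`;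
* for every `l` in `[0, ∞]` there is such a set `A` with Cramér constant `l`, and the same is true
  with the density `1 / log n` of Cramér's own model in place of `dens n`;
* there is such a set `A` all of whose gaps are `O(log² / log log)`;
* a set for which the law holds with the error `O(x ^ (1 - c))`, `c > 0`, is infinite and has
  infinitely many gaps `≥ d log² / log log`, `d > 0`. -/
theorem result :
    (∀ A : Set ℕ, TupleLaw dens A → HardyLittlewood A) ∧
    (∀ (a : ℕ) (H : Finset ℕ), LibCI99.hlConst 1 a H = LibCI99.singSeries H) ∧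
    (∀ l : ℝ≥0∞, ∃ A : Set ℕ, TupleLaw dens A ∧ LibCramer.cramer A = l) ∧
    (∀ l : ℝ≥0∞, ∃ A : Set ℕ, TupleLaw (fun n => if 8 ≤ n then 1 / Real.log n else 0) A ∧
      LibCramer.cramer A = l) ∧
    (∃ A : Set ℕ, TupleLaw dens A ∧ ∃ C : ℝ, 0 < C ∧ ∀ᶠ m : ℕ in atTop,
      ∃ a ∈ A, m < a ∧ (a : ℝ) ≤ m + C * Real.log m ^ 2 / Real.log (Real.log m)) ∧
    (∀ A : Set ℕ, WeakTupleLaw A → A.Infinite ∧ ∃ d : ℝ, 0 < d ∧ ∃ᶠ k : ℕ in atTop,
      d * (Real.log (Nat.nth (· ∈ A) k) ^ 2 / Real.log (Real.log (Nat.nth (· ∈ A) k))) ≤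
        gap A k) := by
  refine ⟨fun A hA q a hq H => LibCI99.hl_of_law A hA q a hq H, LibCI99.hlConst_one, fun l => ?_,
    fun l => ?_, ?_, fun A hA => Pool.CI63.converse93 A hA⟩
  · obtain ⟨A, -, h1, h2⟩ := prescribed weight_dens l
    exact ⟨A, h1, h2⟩
  · obtain ⟨A, -, h1, h2⟩ := prescribed weight_flat l
    exact ⟨A, h1, h2⟩
  · obtain ⟨A, -, h1, h2⟩ := smallGaps weight_dens
    exact ⟨A, h1, h2⟩

end Pool.Agent.Results.MP_ff81b6_nt.TupleAsymptotics
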