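import Pool.Agent.LibMaier.MacroUpper

/-!
Cramer's problem for randomly displaced primes: a universal lower bound, and its sharpness.
-/

namespace Pool.Agent.Results.MP_ff81b6_nt.UniversalDisplacement

open Pool.Agent.LibCramer Pool.Agent.LibMaier MeasureTheory ProbabilityTheory Filter Topology

/-- Move every prime `p` to `p + X p`, where the integers `X p` are independent, and let `L` be the
Cramer constant of the set of all `p + X p`.

First part: let `|X p| ≤ b p` with `b p / p → 0`. If for some `c > 0`, `0 < κ < 1` no interval of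
length `c log² p` contains `X p` with probability larger than `κ` (`p` large), and
`c log(1/(1-κ))/κ < 1`, then almost surely `L ≥ c`. If the displacements are not concentrated at
the scale `log² p`, then almost surely `L ≥ 1`.

Second part: if `X p = ⌊p Z p⌋`, where the `Z p` are independent with a common continuous density
`f` on `[0, K]`, then almost surely `L = 1/D`, `D = ∫ f(y)/(1+y) dy`. -/
theorem result {Ω : Type*} [MeasurableSpace Ω] (μ : Measure Ω) [IsProbabilityMeasure μ] :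
    (∀ (X : Nat.Primes → Ω → ℤ) (b : Nat.Primes → ℝ), (∀ p, Measurable (X p)) → iIndepFun X μ →
      Tendsto (fun p : Nat.Primes => b p / ((p : ℕ) : ℝ)) cofinite (𝓝 0) →
      (∀ p : Nat.Primes, ∀ᵐ ω ∂μ, |(X p ω : ℝ)| ≤ b p) →
      (∀ c κ : ℝ, 0 < c → 0 < κ → κ < 1 →
        (∃ P₀ : ℕ, ∀ p : Nat.Primes, P₀ ≤ (p : ℕ) → ∀ t : ℤ,
          μ.real {ω | t < X p ω ∧ (X p ω : ℝ) ≤ t + c * Real.log (p : ℕ) ^ 2} ≤ κ) →
        c * (Real.log (1 / (1 - κ)) / κ) < 1 →
        ∀ᵐ ω ∂μ, (displaced X ω).Infinite ∧ ENNReal.ofReal c ≤ cramer (displaced X ω)) ∧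
      ((∀ κ : ℝ, 0 < κ → ∃ P₀ : ℕ, ∀ p : Nat.Primes, P₀ ≤ (p : ℕ) → ∀ t : ℤ,
          μ.real {ω | t < X p ω ∧ (X p ω : ℝ) ≤ t + Real.log (p : ℕ) ^ 2} ≤ κ) →
        ∀ᵐ ω ∂μ, (displaced X ω).Infinite ∧ 1 ≤ cramer (displaced X ω))) ∧
    (∀ (Z : Nat.Primes → Ω → ℝ) (K : ℝ) (f : ℝ → ℝ), 0 < K → (∀ p, Measurable (Z p)) →
      iIndepFun Z μ → ContinuousOn f (Set.Icc 0 K) → (∀ y ∈ Set.Icc 0 K, 0 ≤ f y) →
      (∀ p : Nat.Primes, μ.map (Z p) =
        (volume.restrict (Set.Icc 0 K)).withDensity (fun y => ENNReal.ofReal (f y))) →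
      ∀ᵐ ω ∂μ, (displaced (fun p ω => ⌊((p : ℕ) : ℝ) * Z p ω⌋) ω).Infinite ∧
        cramer (displaced (fun p ω => ⌊((p : ℕ) : ℝ) * Z p ω⌋) ω) =
          ENNReal.ofReal (1 / ∫ y in Set.Icc 0 K, f y / (1 + y))) := by
  refine ⟨fun X b hX hind hb hbd => ?_, fun Z K f hK hZ hind hf hf0 hlaw => ?_⟩
  · have hreach := hreach_of_small hb hbd
    have hup := hup_of_small hb hbd
    have hdens : ∀ ε : ℝ, 0 < ε → ∃ᶠ x : ℕ in atTop, ∑ p ∈ rowP 0 (2 * x),
        μ.real {ω | 0 < ((p : ℕ) : ℤ) + X p ω ∧ ((p : ℕ) : ℤ) + X p ω ≤ (x : ℤ)} ≤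
          (1 + ε) * x / Real.log x := fun ε hε => (hdens_of_small hb hbd ε hε).frequently
    refine ⟨fun c κ hc hκ0 hκ1 hconc hlt => ?_, fun hconc => ?_⟩
    · exact displaced_ge_kappa hX hind one_pos hc hκ0 hκ1 hreach hup hconc hdens (by
        rw [mul_one]; exact hlt)
    · have h := displaced_ge_of_density hX hind one_pos hreach hup hconc hdens
      simpa using h
  · exact mdisp_cramer hZ hind hf hf0 hlaw hK (densC_pos hZ hf hf0 hlaw hK)

end Pool.Agent.Results.MP_ff81b6_nt.UniversalDisplacement
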